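import Mathlib
import Pool.Agent.Q123.Conf.Defs
import Pool.Agent.Q123.Conf.Upper
import Pool.Agent.Q123.Conf.Final

/-!
Upper embeddability of symmetric configurations depends on the orientation.
-/

namespace Pool.Agent.Results.MP_e7dc11_co.OrientationMatters

open Q123.Conf

/-- There is a connected symmetric configuration `33_3` with two orientations such that it is
upper embeddable in the first but not in the second one. -/
theorem result : ∃ X : Config 33, X.graph.Connected ∧
    ∃ ω₁ ω₂ : Fin 33 → Bool, X.UpperEmbeddableIn ω₁ ∧ ¬ X.UpperEmbeddableIn ω₂ :=
  ⟨X0, X0_connected, om1, om2, upper1, not_upper2⟩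

end Pool.Agent.Results.MP_e7dc11_co.OrientationMatters
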